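import Pool.Agent.helper82.SB.Shared

/-!
helper39.  Module SB-C of helper82's project on MP_f4492a_gt: moving a vertex along an adjacent edge
does not raise the number of maxima.
-/

set_option autoImplicit false

namespace Pool.Agent.helper82.SB

open Matrix

namespace SlideAux

theorem d_case1 (a x y b t : ℝ) (hx : x ≠ 0) (hy : y ≠ 0) (ht0 : 0 ≤ t) (ht1 : t ≤ 1) :
    D a (x + t * y) + D (x + t * y) ((1 - t) * y) + D ((1 - t) * y) b ≤ D a x + D x y + D y b := by
  classical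
  have h1t : 0 ≤ 1 - t := by linarith
  rcases lt_or_gt_of_ne hx with hx | hx <;> rcases lt_or_gt_of_ne hy with hy | hy
  · have h1 : x + t * y < 0 := by nlinarith
    have h2 : (1 - t) * y ≤ 0 := by nlinarith
    unfold D
    simp only [h1, hx, hy, not_lt.mpr h1.le, not_lt.mpr h2, not_lt.mpr hx.le, not_lt.mpr hy.le,
      and_true, false_and, if_false]
    omega
  · have h2 : 0 ≤ (1 - t) * y := mul_nonneg h1t hy.le
    unfold D
    simp only [hx, hy, not_lt.mpr h2, not_lt.mpr hx.le, not_lt.mpr hy.le,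
      and_true, true_and, and_false, false_and, if_false]
    rcases lt_or_ge (x + t * y) 0 with h1 | h1
    · simp only [h1, and_true]
      have : (if 0 < (1 - t) * y ∧ b < 0 then 1 else 0) ≤ (if b < 0 then 1 else 0) := by
        split_ifs <;> simp_all
      omega
    · simp only [not_lt.mpr h1, and_false, if_false]
      have : (if 0 < (1 - t) * y ∧ b < 0 then 1 else 0) ≤ (if b < 0 then 1 else 0) := by
        split_ifs <;> simp_all
      omega
  · have h2 : (1 - t) * y ≤ 0 := by nlinarith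
    unfold D
    simp only [hx, hy, not_lt.mpr h2, not_lt.mpr hx.le, not_lt.mpr hy.le,
      and_true, true_and, and_false, false_and, if_false, if_true]
    rcases lt_or_ge (x + t * y) 0 with h1 | h1
    · simp only [not_lt.mpr h1.le, false_and, if_false]
      split_ifs <;> omega
    · simp only [not_lt.mpr h1, and_false, if_false]
      split_ifs <;> omega
  · have h1 : 0 < x + t * y := by
      have := mul_nonneg ht0 hy.le
      linarith
    have h2 : 0 ≤ (1 - t) * y := mul_nonneg h1t hy.le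
    unfold D
    simp only [h1, hx, hy, not_lt.mpr h1.le, not_lt.mpr h2, not_lt.mpr hx.le, not_lt.mpr hy.le,
      and_true, true_and, and_false, if_false]
    have : (if 0 < (1 - t) * y ∧ b < 0 then 1 else 0) ≤ (if b < 0 then 1 else 0) := by
      split_ifs <;> simp_all
    omega

theorem D_neg (s t : ℝ) : D (-t) (-s) = D s t := by
  unfold D
  simp only [Left.neg_pos_iff, Left.neg_neg_iff]
  congr 1
  exact propext and_comm

theorem d_case2 (a x y b t : ℝ) (hx : x ≠ 0) (hy : y ≠ 0) (ht0 : 0 ≤ t) (ht1 : t ≤ 1) :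
    D a ((1 - t) * x) + D ((1 - t) * x) (y + t * x) + D (y + t * x) b ≤ D a x + D x y + D y b := by
  have h := d_case1 (-b) (-y) (-x) (-a) t (neg_ne_zero.mpr hy) (neg_ne_zero.mpr hx) ht0 ht1
  have e1 : -y + t * -x = -(y + t * x) := by ring
  have e2 : (1 - t) * -x = -((1 - t) * x) := by ring
  rw [e1, e2, D_neg, D_neg, D_neg, D_neg, D_neg, D_neg] at h
  omega

theorem sum3 (m : ℕ) (f : ℕ → ℕ) : ∑ i ∈ Finset.range (m + 3), f i =
    (∑ i ∈ Finset.range m, f (i + 3)) + (f 0 + f 1 + f 2) := by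
  rw [Finset.sum_range_succ', Finset.sum_range_succ', Finset.sum_range_succ']
  simp only [zero_add, add_assoc]
  norm_num
  omega

/-- the version with the moving vertex at index `1` -/
theorem slide_one (n : ℕ) (hn : 3 ≤ n) (Q Q' : ℤ → E3) (t : ℝ) (ht0 : 0 ≤ t) (ht1 : t ≤ 1)
    (h1 : ∀ i, ¬ i ≡ 1 [ZMOD n] → Q' i = Q i)
    (h2 : Q' 1 = Q 1 + t • (Q 2 - Q 1) ∨ Q' 1 = Q 1 + t • (Q 0 - Q 1)) (v : E3)
    (hx : v ⬝ᵥ edge Q 0 ≠ 0) (hy : v ⬝ᵥ edge Q 1 ≠ 0) : maxima n Q' v ≤ maxima n Q v := by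
  obtain ⟨m, rfl⟩ : ∃ m, n = m + 3 := ⟨n - 3, by omega⟩
  have hne : ∀ j : ℤ, (j = -1 ∨ j = 0 ∨ (2 ≤ j ∧ j ≤ ((m + 3 : ℕ) : ℤ))) → Q' j = Q j := by
    intro j hj
    apply h1
    intro hc
    have hd : ((m + 3 : ℕ) : ℤ) ∣ 1 - j := Int.modEq_iff_dvd.mp hc
    obtain ⟨c, hc⟩ := hd
    push_cast at hc hj
    rcases hj with rfl | rfl | ⟨hj1, hj2⟩
    · have hc0 : 0 < c := by by_contra h; nlinarith
      nlinarith
    · have hc0 : 0 < c := by by_contra h; nlinarith
      nlinarith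
    · have hc0 : c < 0 := by by_contra h; nlinarith
      nlinarith
  have hm1 : edge Q' (-1) = edge Q (-1) := by
    unfold edge
    rw [hne (-1) (by simp), show (-1 : ℤ) + 1 = 0 by norm_num, hne 0 (by simp)]
  have hrest : ∀ j : ℤ, 2 ≤ j → j + 1 ≤ ((m + 3 : ℕ) : ℤ) → edge Q' j = edge Q j := by
    intro j hj1 hj2
    unfold edge
    rw [hne j (Or.inr (Or.inr ⟨hj1, by linarith⟩)), hne (j + 1) (Or.inr (Or.inr ⟨by linarith, hj2⟩))]
  have h20 : edge Q' 2 = edge Q 2 := hrest 2 le_rfl (by push_cast; linarith)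
  rw [maxima_eq_sum, maxima_eq_sum, sum3, sum3]
  have hs : ∑ i ∈ Finset.range m, D (v ⬝ᵥ edge Q' (((i + 3 : ℕ) : ℤ) - 1)) (v ⬝ᵥ edge Q' ((i + 3 : ℕ) : ℤ))
      = ∑ i ∈ Finset.range m, D (v ⬝ᵥ edge Q (((i + 3 : ℕ) : ℤ) - 1)) (v ⬝ᵥ edge Q ((i + 3 : ℕ) : ℤ)) := by
    apply Finset.sum_congr rfl
    intro i hi
    rw [Finset.mem_range] at hi
    rw [hrest (((i + 3 : ℕ) : ℤ) - 1) (by push_cast; linarith) (by push_cast; omega),
      hrest ((i + 3 : ℕ) : ℤ) (by push_cast; linarith) (by push_cast; omega)]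
  rw [hs]
  apply Nat.add_le_add_left
  have c0 : ((0 : ℕ) : ℤ) - 1 = -1 := by norm_num
  have c1 : ((1 : ℕ) : ℤ) - 1 = 0 := by norm_num
  have c2 : ((2 : ℕ) : ℤ) - 1 = 1 := by norm_num
  have c3 : ((0 : ℕ) : ℤ) = 0 := by norm_num
  have c4 : ((1 : ℕ) : ℤ) = 1 := by norm_num
  have c5 : ((2 : ℕ) : ℤ) = 2 := by norm_num
  rw [c0, c1, c2, c3, c4, c5, hm1, h20]
  rcases h2 with h2 | h2
  · have e0 : edge Q' 0 = edge Q 0 + t • edge Q 1 := by
      unfold edge
      rw [show (0 : ℤ) + 1 = 1 by norm_num, show (1 : ℤ) + 1 = 2 by norm_num, h2, hne 0 (by simp)]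
      abel
    have e1 : edge Q' 1 = (1 - t) • edge Q 1 := by
      unfold edge
      rw [show (1 : ℤ) + 1 = 2 by norm_num, h2,
        hne 2 (Or.inr (Or.inr ⟨le_rfl, by push_cast; linarith⟩)), sub_smul, one_smul]
      abel
    rw [e0, e1, dotProduct_add, dotProduct_smul, dotProduct_smul, smul_eq_mul, smul_eq_mul]
    exact d_case1 _ _ _ _ t hx hy ht0 ht1
  · have e0 : edge Q' 0 = (1 - t) • edge Q 0 := by
      unfold edge
      rw [show (0 : ℤ) + 1 = 1 by norm_num, h2, hne 0 (by simp), sub_smul, one_smul, smul_sub,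
        smul_sub]
      abel
    have e1 : edge Q' 1 = edge Q 1 + t • edge Q 0 := by
      unfold edge
      rw [show (0 : ℤ) + 1 = 1 by norm_num, show (1 : ℤ) + 1 = 2 by norm_num, h2,
        hne 2 (Or.inr (Or.inr ⟨le_rfl, by push_cast; linarith⟩)), smul_sub, smul_sub]
      abel
    rw [e0, e1, dotProduct_add, dotProduct_smul, dotProduct_smul, smul_eq_mul, smul_eq_mul]
    exact d_case2 _ _ _ _ t hx hy ht0 ht1

end SlideAux

open SlideAux

/-- SB-C, pointwise version: if `v` is orthogonal to neither of the two edges at the moving vertex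
then the number of maxima in direction `v` does not go up. -/
theorem maxima_slide_le (n : ℕ) (hn : 3 ≤ n) (P P' : ℤ → E3) (hper : ∀ i, P (i + n) = P i)
    (hper' : ∀ i, P' (i + n) = P' i) (k : ℤ) (t : ℝ) (ht0 : 0 ≤ t) (ht1 : t ≤ 1)
    (h1 : ∀ i, ¬ i ≡ k [ZMOD n] → P' i = P i)
    (h2 : P' k = P k + t • (P (k + 1) - P k) ∨ P' k = P k + t • (P (k - 1) - P k)) (v : E3)
    (hx : v ⬝ᵥ edge P (k - 1) ≠ 0) (hy : v ⬝ᵥ edge P k ≠ 0) : maxima n P' v ≤ maxima n P v := by
  rw [← maxima_rotate hper (k - 1), ← maxima_rotate hper' (k - 1)]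
  apply slide_one n hn (fun i => P (i + (k - 1))) (fun i => P' (i + (k - 1))) t ht0 ht1
  · intro i hi
    apply h1
    intro hc
    apply hi
    have h3 : i + (k - 1) - (k - 1) ≡ k - (k - 1) [ZMOD n] := hc.sub_right (k - 1)
    have e1 : i + (k - 1) - (k - 1) = i := by ring
    have e2 : k - (k - 1) = (1 : ℤ) := by ring
    rwa [e1, e2] at h3
  · have e1 : (1 : ℤ) + (k - 1) = k := by ring
    have e2 : (2 : ℤ) + (k - 1) = k + 1 := by ring
    have e3 : (0 : ℤ) + (k - 1) = k - 1 := by ring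
    simp only [e1, e2, e3]
    exact h2
  · have : edge (fun i => P (i + (k - 1))) 0 = edge P (k - 1) := by
      unfold edge
      simp only
      rw [show (0 : ℤ) + 1 + (k - 1) = k - 1 + 1 by ring, show (0 : ℤ) + (k - 1) = k - 1 by ring]
    rw [this]; exact hx
  · have : edge (fun i => P (i + (k - 1))) 1 = edge P k := by
      unfold edge
      simp only
      rw [show (1 : ℤ) + 1 + (k - 1) = k + 1 by ring, show (1 : ℤ) + (k - 1) = k by ring]
    rw [this]; exact hy

/-- SB-C. Moving a vertex along an adjacent edge does not raise the maximal number of maxima. -/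
theorem bound_slide (n : ℕ) (hn : 3 ≤ n) (P P' : ℤ → E3) (hper : ∀ i, P (i + n) = P i)
    (hper' : ∀ i, P' (i + n) = P' i) (k : ℤ) (hk1 : edge P (k - 1) ≠ 0) (hk2 : edge P k ≠ 0)
    (t : ℝ) (ht0 : 0 ≤ t) (ht1 : t ≤ 1)
    (h1 : ∀ i, ¬ i ≡ k [ZMOD n] → P' i = P i)
    (h2 : P' k = P k + t • (P (k + 1) - P k) ∨ P' k = P k + t • (P (k - 1) - P k))
    (M : ℕ) (hM : ∀ v, maxima n P v ≤ M) (v : E3) : maxima n P' v ≤ M := by
  apply bound_of_generic n P' M {edge P (k - 1), edge P k} (by simp)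
  intro v hv
  exact (maxima_slide_le n hn P P' hper hper' k t ht0 ht1 h1 h2 v
    (hv _ (by simp) hk1) (hv _ (by simp) hk2)).trans (hM v)

end Pool.Agent.helper82.SB
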